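import Pool.Agent.H624.LD.Stm
import Pool.Graph.R_pool_sql_team_seeded_9f66d723.W6h79.LD.X1

/-!
# (HAJ) Hajnal's free set theorem for countable set mappings, every cardinal above `ℵ₁`
-/

set_option autoImplicit false
set_option linter.deprecated false

open Set Order
open Pool.Agent.W6h79.LD Pool.Agent.H624.LD

noncomputable section

namespace Pool.Agent.H675.LD

universe u

/-- a countable subset of a regular uncountable cardinal is bounded -/
lemma bdd_of_small {θ : Cardinal.{u}} (hθ : θ.IsRegular) (s : Set θ.ord.ToType)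
    (hs : Cardinal.mk s < θ) : ∃ β, ∀ ξ ∈ s, ξ < β := by
  by_contra hcon
  push Not at hcon
  have h1 : IsCofinal s := fun β => hcon β
  have h2 := Order.cof_le h1
  rw [Ordinal.cof_toType, hθ.cof_ord] at h2
  exact absurd hs (not_lt.2 h2)

/-- the sequence of regular cardinals -/
def gg {W : Type u} [LinearOrder W] [WellFoundedLT W] (θ : Cardinal.{u}) (c : W → Cardinal.{u}) :
    W → Cardinal.{u} :=
  wellFounded_lt.fix (C := fun _ : W => Cardinal.{u}) fun i ih =>
    succ (max θ (max (c i) (⨆ j : Iio i, ih j.1 j.2)))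

lemma gg_eq {W : Type u} [LinearOrder W] [WellFoundedLT W] (θ : Cardinal.{u})
    (c : W → Cardinal.{u}) (i : W) :
    gg θ c i = succ (max θ (max (c i) (⨆ j : Iio i, gg θ c j.1))) := by
  conv_lhs => rw [gg, WellFounded.fix_eq]
  rfl

section
variable {W : Type u} [LinearOrder W] [WellFoundedLT W] {θ : Cardinal.{u}}
  {c : W → Cardinal.{u}}

lemma theta_lt_gg (i : W) : θ < gg θ c i := by
  rw [gg_eq]
  exact lt_of_le_of_lt (le_max_left _ _) (lt_succ _)

lemma c_lt_gg (i : W) : c i < gg θ c i := by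
  rw [gg_eq]
  exact lt_of_le_of_lt ((le_max_left _ _).trans (le_max_right _ _)) (lt_succ _)

lemma gg_lt_gg {i j : W} (h : j < i) : gg θ c j < gg θ c i := by
  rw [gg_eq θ c i]
  refine lt_of_le_of_lt ?_ (lt_succ _)
  refine le_trans ?_ ((le_max_right _ _).trans (le_max_right _ _))
  exact le_ciSup (f := fun j : Iio i => gg θ c j.1) (Cardinal.bddAbove_range _) ⟨j, h⟩

lemma gg_regular (hθ : Cardinal.aleph0 ≤ θ) (i : W) : (gg θ c i).IsRegular := by
  rw [gg_eq]
  exact Cardinal.isRegular_succ (hθ.trans (le_max_left _ _))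

lemma gg_lt {κ : Cardinal.{u}} (hκ : κ.IsSingular) (hθ : θ < κ) (hc : ∀ i, c i < κ)
    (hW : ∀ i : W, Cardinal.mk (Iio i) < κ.ord.cof) (i : W) : gg θ c i < κ := by
  induction i using WellFoundedLT.induction with
  | _ i ih =>
    rw [gg_eq]
    refine hκ.isSuccLimit.succ_lt (max_lt hθ (max_lt (hc i) ?_))
    exact Cardinal.iSup_lt_of_lt_cof_ord (hW i) fun j => ih j.1 j.2

end

/-- the main combinatorial argument -/
theorem sigma_case {W : Type u} [LinearOrder W] [WellFoundedLT W] (g : W → Cardinal.{u})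
    (θ κ : Cardinal.{u}) (hθ : θ.IsRegular) (hθ1 : Cardinal.aleph0 < θ)
    (hWθ : Cardinal.mk W < θ) (hg : ∀ i, (g i).IsRegular) (hθg : ∀ i, θ < g i)
    (hmono : ∀ i j, j < i → g j < g i) (hcof : ∀ a < κ, ∃ i, a < g i)
    (I : (Σ i : W, (g i).out) → Set (Σ i : W, (g i).out)) (hI : ∀ a, (I a).Countable) :
    ∃ B : Set (Σ i : W, (g i).out), κ ≤ Cardinal.mk B ∧ PX1.Free I B := by
  classical
  have hgω : ∀ i, Cardinal.aleph0 < g i := fun i => hθ1.trans (hθg i)
  have hg1 : ∀ i, Cardinal.aleph 1 < g i := fun i => by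
    refine lt_of_le_of_lt ?_ (hθg i)
    rw [← Cardinal.succ_aleph0]
    exact succ_le_of_lt hθ1
  have hK : ∀ i, Cardinal.mk (g i).out = g i := fun i => Cardinal.mk_out _
  -- the sets `Y i`
  have hY : ∀ i, ∃ Y : Set (g i).out, Cardinal.mk Y = g i ∧
      (∀ x ∈ Y, ∀ y ∈ Y, x ≠ y → (⟨i, x⟩ : Σ i : W, (g i).out) ∉ I ⟨i, y⟩) ∧
      ∀ x ∈ Y, ∀ j, j < i → ∀ y : (g j).out, (⟨i, x⟩ : Σ i : W, (g i).out) ∉ I ⟨j, y⟩ := by
    intro i
    let S : Set (g i).out := ⋃ j : Iio i, ⋃ y : (g j.1).out,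
      {x | (⟨i, x⟩ : Σ i : W, (g i).out) ∈ I ⟨j.1, y⟩}
    have hS : Cardinal.mk S < g i := by
      have h1 : Cardinal.mk (Iio i) < g i :=
        ((Cardinal.mk_set_le _).trans_lt hWθ).trans (hθg i)
      rw [Cardinal.card_iUnion_lt_iff_forall_of_isRegular (hg i) h1]
      intro j
      rw [Cardinal.card_iUnion_lt_iff_forall_of_isRegular (hg i)
        (by rw [hK]; exact hmono i j.1 j.2)]
      intro y
      have : ({x | (⟨i, x⟩ : Σ i : W, (g i).out) ∈ I ⟨j.1, y⟩} : Set (g i).out).Countable :=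
        (hI _).preimage (sigma_mk_injective (i := i))
      exact (Cardinal.mk_le_aleph0_iff.mpr this.to_subtype).trans_lt (hgω i)
    have hinf : Infinite (g i).out := by
      rw [Cardinal.infinite_iff, hK]; exact (hgω i).le
    have hT : Cardinal.mk (Sᶜ : Set (g i).out) = g i := by
      rw [Cardinal.mk_compl_of_infinite S (by rw [hK]; exact hS), hK]
    let T := (Sᶜ : Set (g i).out)
    have h1 : Cardinal.mk (Cardinal.aleph.{u} 1).ord.ToType = Cardinal.aleph 1 :=
      Cardinal.mk_ord_toType _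
    have hunc : Uncountable (Cardinal.aleph.{u} 1).ord.ToType := by
      rw [← Cardinal.aleph0_lt_mk_iff, h1]
      exact Cardinal.aleph0_lt_aleph_one
    obtain ⟨B, hB, hB'⟩ := PX1.main (A := T) (W := (Cardinal.aleph.{u} 1).ord.ToType)
      (fun t => {s : T | (⟨i, s.1⟩ : Σ i : W, (g i).out) ∈ I ⟨i, t.1⟩})
      (fun t => (hI _).preimage ((sigma_mk_injective (i := i)).comp Subtype.val_injective))
      (by rw [hT]; exact hg i) (by rw [hT]; exact hgω i) (by rw [hT, h1]; exact hg1 i)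
    refine ⟨Subtype.val '' B, ?_, ?_, ?_⟩
    · rw [Cardinal.mk_image_eq Subtype.val_injective, hB, hT]
    · rintro x ⟨x', hx, rfl⟩ y ⟨y', hy, rfl⟩ hne h
      exact hB' x' hx y' hy (fun h => hne (congrArg Subtype.val h)) h
    · rintro x ⟨x', hx, rfl⟩ j hj y h
      exact x'.2 (mem_iUnion.2 ⟨⟨j, hj⟩, mem_iUnion.2 ⟨y, h⟩⟩)
  choose Y hYc hYf hYu using hY
  let Θ := θ.ord.ToType
  have hΘ : Cardinal.mk Θ = θ := Cardinal.mk_ord_toType _
  -- one step of the recursion
  have step : ∀ (i : W) (q : ∀ j, j < i → (g j).out → Option Θ),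
      ∃ r : (g i).out → Option Θ, (∀ x ξ, r x = some ξ → x ∈ Y i) ∧
        (∀ ξ, g i ≤ Cardinal.mk {x | r x = some ξ}) ∧
        ∃ β : Θ, ∀ x ζ, r x = some ζ → ∀ j (h : j < i) (y : (g j).out),
          (⟨j, y⟩ : Σ i : W, (g i).out) ∈ I ⟨i, x⟩ → ∀ ξ, q j h y = some ξ → ξ < β := by
    intro i q
    have hb : ∀ x : (g i).out, ∃ β : Θ, ∀ j (h : j < i) (y : (g j).out),
          (⟨j, y⟩ : Σ i : W, (g i).out) ∈ I ⟨i, x⟩ → ∀ ξ, q j h y = some ξ → ξ < β := by
      intro x
      let F : (Σ i : W, (g i).out) → Option Θ := fun p => if h : p.1 < i then q p.1 h p.2 else none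
      let Ξ : Set Θ := some ⁻¹' (F '' I ⟨i, x⟩)
      have hΞ : Ξ.Countable := ((hI _).image F).preimage (Option.some_injective _)
      obtain ⟨β, hβ⟩ := bdd_of_small hθ Ξ
        ((Cardinal.mk_le_aleph0_iff.mpr hΞ.to_subtype).trans_lt hθ1)
      refine ⟨β, fun j h y hy ξ hξ => hβ ξ ⟨⟨j, y⟩, hy, ?_⟩⟩
      simp only [F, h, dif_pos, hξ]
    choose b hb using hb
    obtain ⟨β, hβ⟩ : ∃ β : Θ, g i ≤ Cardinal.mk {x | x ∈ Y i ∧ b x = β} := by
      by_contra hcon
      push Not at hcon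
      have h1 : Cardinal.mk (⋃ β : Θ, {x | x ∈ Y i ∧ b x = β} : Set (g i).out) < g i := by
        rw [Cardinal.card_iUnion_lt_iff_forall_of_isRegular (hg i) (by rw [hΘ]; exact hθg i)]
        exact hcon
      have h2 : Y i ⊆ (⋃ β : Θ, {x | x ∈ Y i ∧ b x = β} : Set (g i).out) := fun x hx =>
        mem_iUnion.2 ⟨b x, hx, rfl⟩
      have h3 := (Cardinal.mk_le_mk_of_subset h2).trans_lt h1
      rw [hYc] at h3
      exact lt_irrefl _ h3
    let Z : Set (g i).out := {x | x ∈ Y i ∧ b x = β}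
    have hZ : Cardinal.mk Z = g i := le_antisymm ((Cardinal.mk_set_le _).trans (hK i).le) hβ
    have hZZ : Cardinal.mk Z = Cardinal.mk (Z × Θ) := by
      rw [Cardinal.mk_prod, Cardinal.lift_id, Cardinal.lift_id, hZ, hΘ]
      exact (Cardinal.mul_eq_left (hgω i).le (hθg i).le (hθ1.trans_le' bot_le).ne').symm
    obtain ⟨e⟩ := Cardinal.eq.1 hZZ
    refine ⟨fun x => if h : x ∈ Z then some (e ⟨x, h⟩).2 else none, ?_, ?_, β, ?_⟩
    · intro x ξ hx
      by_cases h : x ∈ Z
      · exact h.1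
      · simp [h] at hx
    · intro ξ
      refine hZ.ge.trans ?_
      refine Cardinal.mk_le_of_injective (f := fun z : Z => (⟨(e.symm (z, ξ)).1, ?_⟩ :
        {x | (if h : x ∈ Z then some (e ⟨x, h⟩).2 else none) = some ξ})) ?_
      · have h1 : (e.symm (z, ξ)).1 ∈ Z := (e.symm (z, ξ)).2
        simp only [mem_setOf_eq, h1, dif_pos]
        simp
      · intro z z' hzz
        have h1 : (e.symm (z, ξ)).1 = (e.symm (z', ξ)).1 := by
          have := Subtype.ext_iff.1 hzz
          exact this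
        have h2 := e.symm.injective (Subtype.val_injective h1)
        exact (Prod.mk.inj h2).1
    · intro x ζ hx j h y hy ξ hξ
      by_cases hxZ : x ∈ Z
      · have := hb x j h y hy ξ hξ
        rwa [hxZ.2] at this
      · simp [hxZ] at hx
  choose R hR1 hR2 hR3 using step
  let p : ∀ i : W, (g i).out → Option Θ :=
    wellFounded_lt.fix (C := fun i : W => (g i).out → Option Θ) fun i q => R i q
  have hp : ∀ i, p i = R i (fun j _ => p j) := by
    intro i
    simp only [p]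
    rw [WellFounded.fix_eq]
  choose β hβ using hR3
  let βs : W → Θ := fun i => β i (fun j _ => p j)
  obtain ⟨γ, hγ⟩ := bdd_of_small hθ (range βs) (Cardinal.mk_range_le.trans_lt hWθ)
  refine ⟨{a | p a.1 a.2 = some γ}, ?_, ?_⟩
  · refine le_of_forall_lt fun a ha => ?_
    obtain ⟨i, hi⟩ := hcof a ha
    refine hi.trans_le ((hR2 i (fun j _ => p j) γ).trans ?_)
    rw [← hp i]
    refine Cardinal.mk_le_of_injective (f := fun z : {x | p i x = some γ} =>
      (⟨⟨i, z.1⟩, z.2⟩ : {a : Σ i : W, (g i).out | p a.1 a.2 = some γ})) ?_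
    intro z z' h
    have h1 := congrArg Subtype.val h
    simp only [Sigma.mk.injEq, heq_eq_eq, true_and] at h1
    exact Subtype.val_injective h1
  · rintro ⟨i, x⟩ hx ⟨j, y⟩ hy hne hmem
    simp only [mem_setOf_eq] at hx hy
    have hxY : x ∈ Y i := hR1 i (fun j _ => p j) x γ (by rw [← hp i]; exact hx)
    have hyY : y ∈ Y j := hR1 j (fun j _ => p j) y γ (by rw [← hp j]; exact hy)
    rcases lt_trichotomy i j with h | h | h
    · have h1 := hβ j (fun j _ => p j) y γ (by rw [← hp j]; exact hy) i h x hmem γ hx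
      exact lt_asymm h1 (hγ _ ⟨j, rfl⟩)
    · subst h
      exact hYf i x hxY y hyY (fun h => hne (by rw [h])) hmem
    · exact hYu i x hxY j h y hmem

/-- the singular case -/
theorem singular_case (A : Type u) (hA : (Cardinal.mk A).IsSingular) (I : A → Set A)
    (hI : ∀ a, (I a).Countable) :
    ∃ B : Set A, Cardinal.mk B = Cardinal.mk A ∧ PX1.Free I B := by
  classical
  set κ := Cardinal.mk A with hκ
  set lam := κ.ord.cof with hlam
  have hlamκ : lam < κ := hA.cof_ord_lt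
  have hκω : Cardinal.aleph0 ≤ κ := by
    by_contra hcon
    rw [not_le, Cardinal.lt_aleph0] at hcon
    obtain ⟨n, hn⟩ := hcon
    exact absurd (hA.natCast_lt n) (by rw [hn]; exact lt_irrefl _)
  have hlamω : Cardinal.aleph0 ≤ lam := by
    rw [hlam, Ordinal.aleph0_le_cof]
    exact Cardinal.isSuccLimit_ord hκω
  let θ := succ lam
  have hθ : θ.IsRegular := Cardinal.isRegular_succ hlamω
  have hθκ : θ < κ := hA.isSuccLimit.succ_lt hlamκ
  obtain ⟨ι, f, hf, hι⟩ := Ordinal.exists_lsub_cof κ.ord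
  let W := lam.ord.ToType
  have hW : Cardinal.mk W = lam := Cardinal.mk_ord_toType _
  obtain ⟨e⟩ := Cardinal.eq.1 (hW.trans hι.symm)
  let c : W → Cardinal.{u} := fun w => (f (e w)).card
  have hc : ∀ w, c w < κ := by
    intro w
    rw [← Cardinal.lt_ord, ← hf]
    exact Ordinal.lt_lsub _ _
  have hWi : ∀ i : W, Cardinal.mk (Iio i) < κ.ord.cof := fun i => Cardinal.mk_Iio_ord_toType i
  let g : W → Cardinal.{u} := gg θ c
  have hgκ : ∀ i, g i < κ := gg_lt hA hθκ hc hWi
  have hcof : ∀ a < κ, ∃ i, a < g i := by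
    intro a ha
    have h1 : a.ord < Ordinal.lsub f := by rw [hf]; exact Cardinal.ord_lt_ord.2 ha
    obtain ⟨i, hi⟩ := Ordinal.lt_lsub_iff.1 h1
    refine ⟨e.symm i, lt_of_le_of_lt ?_ (c_lt_gg _)⟩
    simp only [c, Equiv.apply_symm_apply]
    exact Cardinal.ord_le.1 hi
  have hX : Cardinal.mk (Σ i : W, (g i).out) = κ := by
    rw [Cardinal.mk_sigma]
    simp only [Cardinal.mk_out]
    refine le_antisymm ?_ ?_
    · refine (Cardinal.sum_le_sum g (fun _ => κ) fun i => (hgκ i).le).trans ?_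
      rw [Cardinal.sum_const', hW]
      exact (Cardinal.mul_le_max_of_aleph0_le_right hκω).trans (max_le hlamκ.le le_rfl)
    · refine le_of_forall_lt fun a ha => ?_
      obtain ⟨i, hi⟩ := hcof a ha
      exact hi.trans_le (Cardinal.le_sum g i)
  obtain ⟨E⟩ := Cardinal.eq.1 (hX.trans hκ)
  obtain ⟨B, hB, hfree⟩ := sigma_case g θ κ hθ (lt_of_le_of_lt hlamω (lt_succ _))
    (by rw [hW]; exact lt_succ _) (fun i => gg_regular (hlamω.trans (le_succ _)) i)
    (fun i => theta_lt_gg i) (fun i j h => gg_lt_gg h) hcof (fun a => E ⁻¹' (I (E a)))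
    (fun a => (hI _).preimage E.injective)
  refine ⟨E '' B, le_antisymm (Cardinal.mk_set_le _) ?_, ?_⟩
  · rw [Cardinal.mk_image_eq E.injective]
    exact hB
  · rintro a ⟨a', ha, rfl⟩ b ⟨b', hb, rfl⟩ hne h
    exact hfree a' ha b' hb (fun h => hne (by rw [h])) h

/-- **(HAJ)** -/
theorem sHAJ : S_HAJ.{u} := by
  intro A hA I hI
  have hω : Cardinal.aleph0 < Cardinal.mk A := Cardinal.aleph0_lt_aleph_one.trans hA
  rcases Cardinal.isRegular_or_isSingular hω.le with h | h
  · exact sX1 A ⟨h, hA⟩ I hI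
  · exact singular_case A h I hI

end Pool.Agent.H675.LD
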